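import Mathlib

/-!
# Division rings algebraic over the centre: tools (helper80)
-/

set_option autoImplicit false
set_option linter.unusedVariables false

open scoped Pointwise

namespace Pool.Agent.NH80.DR

universe u v

/-- `D` contains a noncommutative centrally finite subdivision ring -/
def PF (D : Type u) [DivisionRing D] : Prop :=
  ∃ K : Subfield D, (∃ a ∈ K, ∃ b ∈ K, a * b ≠ b * a) ∧
    ∃ s : Finset D, (∀ t ∈ s, t ∈ K) ∧
      ∀ x ∈ K, ∃ c : D → D, (∀ t ∈ s, c t ∈ K ∧ ∀ y ∈ K, c t * y = y * c t) ∧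
        x = ∑ t ∈ s, c t * t

/-- `D` is algebraic over its centre -/
def AC (D : Type u) [DivisionRing D] : Prop := ∀ x : D, IsIntegral (Subring.center D) x

section

variable {F : Type v} {D : Type u} [Field F] [DivisionRing D] [Algebra F D]

/-- inverses in finite-dimensional subalgebras -/
theorem inv_mem (A : Subalgebra F D) (hA : (Subalgebra.toSubmodule A).FG) {x : D} (hx : x ∈ A) :
    x⁻¹ ∈ A := by
  by_cases h0 : x = 0
  · rw [h0, inv_zero]
    exact A.zero_mem
  haveI : Module.Finite F A := Module.Finite.iff_fg.2 hA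
  let f : A →ₗ[F] A := LinearMap.mulLeft F (⟨x, hx⟩ : A)
  have hf : Function.Injective f := by
    intro y z hyz
    have h1 : x * (y : D) = x * (z : D) := congrArg Subtype.val hyz
    exact Subtype.ext (mul_left_cancel₀ h0 h1)
  obtain ⟨y, hy⟩ := (LinearMap.injective_iff_surjective.1 hf) 1
  have h2 : x * (y : D) = 1 := congrArg Subtype.val hy
  rw [inv_eq_of_mul_eq_one_right h2]
  exact y.2

theorem pf_of_fin (A : Subalgebra F D) (hA : (Subalgebra.toSubmodule A).FG)
    (hn : ∃ a ∈ A, ∃ b ∈ A, a * b ≠ b * a) : PF D := by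
  refine ⟨{ A.toSubring with inv_mem' := fun x hx => inv_mem A hA hx }, hn, ?_⟩
  obtain ⟨s, hs⟩ := hA
  refine ⟨s, fun t ht => ?_, fun x hx => ?_⟩
  · have h1 : t ∈ Submodule.span F (s : Set D) := Submodule.subset_span ht
    rw [hs] at h1
    exact h1
  · have hx' : x ∈ Submodule.span F (s : Set D) := by
      rw [hs]
      exact hx
    obtain ⟨c, hc⟩ := Submodule.mem_span_finset.1 hx'
    refine ⟨fun t => algebraMap F D (c t), fun t ht => ⟨A.algebraMap_mem _, fun y _ =>
      Algebra.commutes _ _⟩, ?_⟩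
    rw [← hc.2]
    exact Finset.sum_congr rfl fun t _ => Algebra.smul_def _ _

theorem gen (R : Subalgebra F D) (hR : (Subalgebra.toSubmodule R).FG) (x : D)
    (hx : IsIntegral F x) (h : ∀ r ∈ R, ∃ s ∈ R, ∃ t ∈ R, x * r = s * x + t)
    (hn : ∃ r ∈ R, x * r ≠ r * x) : PF D := by
  set X := Algebra.adjoin F {x} with hX
  have hxX : x ∈ X := Algebra.self_mem_adjoin_singleton F x
  set V : Submodule F D := Subalgebra.toSubmodule R * Subalgebra.toSubmodule X with hV
  have hVfg : V.FG := hR.mul hx.fg_adjoin_singleton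
  have hmul : ∀ r ∈ R, ∀ y ∈ X, r * y ∈ V := fun r hr y hy => Submodule.mul_mem_mul hr hy
  have h1 : ∀ v ∈ V, ∀ r ∈ R, r * v ∈ V := by
    intro v hv r hr
    refine Submodule.mul_induction_on hv (fun m hm n hn => ?_) (fun y z hy hz => ?_)
    · rw [← mul_assoc]
      exact hmul _ (R.mul_mem hr hm) _ hn
    · rw [mul_add]
      exact V.add_mem hy hz
  have h2 : ∀ v ∈ V, x * v ∈ V := by
    intro v hv
    refine Submodule.mul_induction_on hv (fun m hm n hn => ?_) (fun y z hy hz => ?_)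
    · obtain ⟨s, hs, t, ht, e⟩ := h m hm
      rw [← mul_assoc, e, add_mul, mul_assoc]
      exact V.add_mem (hmul s hs _ (X.mul_mem hxX hn)) (hmul t ht _ hn)
    · rw [mul_add]
      exact V.add_mem hy hz
  set A := Algebra.adjoin F ((R : Set D) ∪ {x}) with hA
  have h3 : ∀ y ∈ A, ∀ v ∈ V, y * v ∈ V := by
    intro y hy
    refine Algebra.adjoin_induction (p := fun y _ => ∀ v ∈ V, y * v ∈ V) ?_ ?_ ?_ ?_ hy
    · rintro y (hy | hy) v hv
      · exact h1 v hv y hy
      · rw [Set.mem_singleton_iff.1 hy]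
        exact h2 v hv
    · intro r v hv
      rw [← Algebra.smul_def]
      exact V.smul_mem r hv
    · intro y z _ _ hy hz v hv
      rw [add_mul]
      exact V.add_mem (hy v hv) (hz v hv)
    · intro y z _ _ hy hz v hv
      rw [mul_assoc]
      exact hy _ (hz v hv)
  have h4 : Subalgebra.toSubmodule A ≤ V := by
    intro y hy
    have h5 : (1 : D) ∈ V := by
      have := hmul 1 R.one_mem 1 X.one_mem
      rwa [mul_one] at this
    have := h3 y hy 1 h5
    rwa [mul_one] at this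
  have h5 : (Subalgebra.toSubmodule A).FG := by
    haveI : Module.Finite F V := Module.Finite.iff_fg.2 hVfg
    exact Module.Finite.iff_fg.1 (Submodule.finiteDimensional_of_le h4)
  obtain ⟨r, hr, hne⟩ := hn
  exact pf_of_fin A h5 ⟨x, Algebra.subset_adjoin (Or.inr rfl), r,
    Algebra.subset_adjoin (Or.inl hr), hne⟩

theorem gen1 (a x : D) (ha : IsIntegral F a) (hx : IsIntegral F x) (s t : D)
    (hs : s ∈ Algebra.adjoin F {a}) (ht : t ∈ Algebra.adjoin F {a})
    (h : x * a = s * x + t) (hn : x * a ≠ a * x) : PF D := by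
  refine gen (Algebra.adjoin F {a}) ha.fg_adjoin_singleton x hx (fun r hr => ?_)
    ⟨a, Algebra.self_mem_adjoin_singleton F a, hn⟩
  refine Algebra.adjoin_induction
    (p := fun r _ => ∃ s ∈ Algebra.adjoin F {a}, ∃ t ∈ Algebra.adjoin F {a},
      x * r = s * x + t) ?_ ?_ ?_ ?_ hr
  · intro r hr
    rw [Set.mem_singleton_iff.1 hr]
    exact ⟨s, hs, t, ht, h⟩
  · intro c
    exact ⟨algebraMap F D c, Subalgebra.algebraMap_mem _ _, 0, Subalgebra.zero_mem _, by
      rw [add_zero, Algebra.commutes]⟩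
  · rintro y z _ _ ⟨s₁, hs₁, t₁, ht₁, e₁⟩ ⟨s₂, hs₂, t₂, ht₂, e₂⟩
    refine ⟨s₁ + s₂, Subalgebra.add_mem _ hs₁ hs₂, t₁ + t₂, Subalgebra.add_mem _ ht₁ ht₂, ?_⟩
    rw [mul_add, e₁, e₂, add_mul]
    abel
  · rintro y z _ hz ⟨s₁, hs₁, t₁, ht₁, e₁⟩ ⟨s₂, hs₂, t₂, ht₂, e₂⟩
    refine ⟨s₁ * s₂, Subalgebra.mul_mem _ hs₁ hs₂, s₁ * t₂ + t₁ * z,
      Subalgebra.add_mem _ (Subalgebra.mul_mem _ hs₁ ht₂) (Subalgebra.mul_mem _ ht₁ hz), ?_⟩
    rw [← mul_assoc, e₁, add_mul, mul_assoc s₁ x z, e₂, mul_add, mul_assoc s₁ s₂ x, add_assoc]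

end

section

variable {D : Type u} [DivisionRing D]

theorem pf_of_sub (E : Subfield D) (h : PF E) : PF D := by
  classical
  obtain ⟨K, ⟨a, ha, b, hb, hab⟩, s, hs, hK⟩ := h
  refine ⟨K.map E.subtype, ⟨a, ⟨a, ha, rfl⟩, b, ⟨b, hb, rfl⟩, fun e => hab (Subtype.ext e)⟩,
    s.map ⟨Subtype.val, Subtype.val_injective⟩, ?_, ?_⟩
  · intro t ht
    obtain ⟨t', ht', rfl⟩ := Finset.mem_map.1 ht
    exact ⟨t', hs t' ht', rfl⟩
  · rintro x ⟨x', hx', rfl⟩
    obtain ⟨c, hc, e⟩ := hK x' hx'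
    refine ⟨fun t => if ht : t ∈ E then (c ⟨t, ht⟩ : D) else 0, ?_, ?_⟩
    · intro t ht
      obtain ⟨t', ht', rfl⟩ := Finset.mem_map.1 ht
      have h1 : (t' : D) ∈ E := t'.2
      have h2 : (if ht : (t' : D) ∈ E then (c ⟨t', ht⟩ : D) else 0) = c t' := dif_pos h1
      show (if ht : (t' : D) ∈ E then (c ⟨t', ht⟩ : D) else 0) ∈ K.map E.subtype ∧
        ∀ y ∈ K.map E.subtype, (if ht : (t' : D) ∈ E then (c ⟨t', ht⟩ : D) else 0) * y =
          y * (if ht : (t' : D) ∈ E then (c ⟨t', ht⟩ : D) else 0)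
      rw [h2]
      refine ⟨⟨c t', (hc t' ht').1, rfl⟩, ?_⟩
      rintro y ⟨y', hy', rfl⟩
      exact congrArg Subtype.val ((hc t' ht').2 y' hy')
    · rw [Finset.sum_map]
      have h3 : (E.subtype x' : D) = ∑ t ∈ s, (c t : D) * (t : D) := by
        rw [e]
        simp
      rw [h3]
      refine Finset.sum_congr rfl fun t' ht' => ?_
      have h1 : (t' : D) ∈ E := t'.2
      have h2 : (if ht : (t' : D) ∈ E then (c ⟨t', ht⟩ : D) else 0) = c t' := dif_pos h1
      show (c t' : D) * t' = (if ht : (t' : D) ∈ E then (c ⟨t', ht⟩ : D) else 0) * t'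
      rw [h2]

/-- algebraicity passes to subdivision rings containing the centre -/
theorem ac_of_sub (E : Subfield D) (hE : ∀ x ∈ Subring.center D, x ∈ E) (h : AC D) : AC E := by
  intro x
  obtain ⟨p, hp, hpx⟩ := h x
  have hc : ∀ c : Subring.center D, (⟨c, hE c c.2⟩ : E) ∈ Subring.center E := by
    intro c
    rw [Subring.mem_center_iff]
    intro g
    exact Subtype.ext (Subring.mem_center_iff.1 c.2 g)
  let f : Subring.center D →+* Subring.center E :=
    { toFun := fun c => ⟨⟨c, hE c c.2⟩, hc c⟩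
      map_one' := rfl
      map_mul' := fun _ _ => rfl
      map_zero' := rfl
      map_add' := fun _ _ => rfl }
  refine ⟨p.map f, hp.map f, ?_⟩
  rw [Polynomial.eval₂_map]
  have h1 : (E.subtype.comp ((algebraMap (Subring.center E) E).comp f)) =
      algebraMap (Subring.center D) D := rfl
  have h2 : E.subtype (Polynomial.eval₂ ((algebraMap (Subring.center E) E).comp f) x p) = 0 := by
    rw [Polynomial.hom_eval₂, h1]
    exact hpx
  exact Subtype.ext h2

end

end Pool.Agent.NH80.DR
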