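import Pool.Agent.NH80.DR.Low

/-!
# Division rings algebraic over the centre: conjugates, derivations, double centralizers (helper80)
-/

set_option autoImplicit false
set_option linter.unusedVariables false

namespace Pool.Agent.NH80.DR

universe u

open Finset Polynomial

section

variable {D : Type u} [DivisionRing D]

open Classical in
/-- generalized polynomial identities over a division ring -/
theorem artin {ι : Type} [Fintype ι] (a : ι → D)
    (ha : LinearIndependent (Subring.center D) a) (k : ℕ) : ∀ e : ι → D,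
    (univ.filter fun i => e i ≠ 0).card ≤ k → (∀ y : D, ∑ i, a i * y * e i = 0) →
    ∀ i, e i = 0 := by
  induction k with
  | zero =>
    intro e he _ i
    by_contra h
    have h1 : i ∈ univ.filter fun i => e i ≠ 0 := Finset.mem_filter.2 ⟨Finset.mem_univ _, h⟩
    rw [Finset.card_eq_zero.1 (Nat.le_zero.1 he)] at h1
    exact absurd h1 (Finset.notMem_empty _)
  | succ k ih =>
    intro e he hrel
    by_contra hcon
    push Not at hcon
    obtain ⟨i0, hi0⟩ := hcon
    set f : ι → D := fun i => e i * (e i0)⁻¹ with hf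
    have hf0 : f i0 = 1 := mul_inv_cancel₀ hi0
    have hfrel : ∀ y : D, ∑ i, a i * y * f i = 0 := by
      intro y
      have h1 : ∑ i, a i * y * f i = (∑ i, a i * y * e i) * (e i0)⁻¹ := by
        rw [Finset.sum_mul]
        exact Finset.sum_congr rfl fun i _ => by rw [hf, mul_assoc (a i * y)]
      rw [h1, hrel, zero_mul]
    have hcomm : ∀ z : D, ∀ i, z * f i - f i * z = 0 := by
      intro z
      refine ih (fun i => z * f i - f i * z) ?_ ?_
      · have h1 : (univ.filter fun i => z * f i - f i * z ≠ 0) ⊆
            (univ.filter fun i => e i ≠ 0).erase i0 := by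
          intro i hi
          have h2 := (Finset.mem_filter.1 hi).2
          refine Finset.mem_erase.2 ⟨?_, Finset.mem_filter.2 ⟨Finset.mem_univ _, ?_⟩⟩
          · rintro rfl
            apply h2
            rw [hf0, mul_one, one_mul, sub_self]
          · intro h3
            apply h2
            rw [hf]
            simp [h3]
        have h2 := Finset.card_le_card h1
        have hm : i0 ∈ univ.filter fun i => e i ≠ 0 :=
          Finset.mem_filter.2 ⟨Finset.mem_univ _, hi0⟩
        rw [Finset.card_erase_of_mem hm] at h2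
        omega
      · intro y
        have h1 : ∑ i, a i * y * (z * f i - f i * z) =
            ∑ i, a i * (y * z) * f i - (∑ i, a i * y * f i) * z := by
          rw [Finset.sum_mul, ← Finset.sum_sub_distrib]
          exact Finset.sum_congr rfl fun i _ => by noncomm_ring
        rw [h1, hfrel, hfrel, zero_mul, sub_zero]
    have hcen : ∀ i, f i ∈ Subring.center D := fun i =>
      Subring.mem_center_iff.2 fun z => sub_eq_zero.1 (hcomm z i)
    have h1 := hfrel 1
    have h2 : ∑ i, (⟨f i, hcen i⟩ : Subring.center D) • a i = 0 := by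
      rw [← h1]
      refine Finset.sum_congr rfl fun i _ => ?_
      rw [mul_one, Algebra.smul_def]
      exact (ccomm (hcen i) (a i)).symm
    have h3 := Fintype.linearIndependent_iff.1 ha _ h2 i0
    have h4 : f i0 = 0 := congrArg Subtype.val h3
    rw [hf0] at h4
    exact one_ne_zero h4

/-- the divided difference -/
noncomputable def TT (p : (Subring.center D)[X]) (a b y : D) : D :=
  ∑ i ∈ range (p.natDegree + 1), p.coeff i • ∑ j ∈ range i, a ^ j * y * b ^ (i - 1 - j)

/-- its coefficients -/
noncomputable def ee (p : (Subring.center D)[X]) (b : D) (j : ℕ) : D :=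
  ∑ i ∈ Ico (j + 1) (p.natDegree + 1), p.coeff i • b ^ (i - 1 - j)

theorem tele (a b y : D) (i : ℕ) :
    a * (∑ j ∈ range i, a ^ j * y * b ^ (i - 1 - j)) -
      (∑ j ∈ range i, a ^ j * y * b ^ (i - 1 - j)) * b = a ^ i * y - y * b ^ i := by
  have h := Finset.sum_range_sub (fun j => a ^ j * y * b ^ (i - j)) i
  simp only [Nat.sub_self, pow_zero, mul_one, Nat.sub_zero, one_mul] at h
  rw [← h, Finset.mul_sum, Finset.sum_mul, ← Finset.sum_sub_distrib]
  refine Finset.sum_congr rfl fun j hj => ?_
  have hj' := Finset.mem_range.1 hj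
  have e1 : i - (j + 1) = i - 1 - j := by omega
  have e2 : i - j = (i - 1 - j) + 1 := by omega
  rw [e1, e2, pow_succ b, pow_succ' a]
  simp only [mul_assoc]

theorem TT_comm (p : (Subring.center D)[X]) (a b y : D) :
    a * TT p a b y - TT p a b y * b = aeval a p * y - y * aeval b p := by
  unfold TT
  rw [Finset.mul_sum, Finset.sum_mul, ← Finset.sum_sub_distrib, aeval_eq_sum_range,
    aeval_eq_sum_range, Finset.sum_mul, Finset.mul_sum, ← Finset.sum_sub_distrib]
  refine Finset.sum_congr rfl fun i _ => ?_
  rw [mul_smul_comm, smul_mul_assoc, ← smul_sub, tele, smul_sub, smul_mul_assoc, mul_smul_comm]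

theorem TT_eq (p : (Subring.center D)[X]) (a b y : D) :
    TT p a b y = ∑ j ∈ range p.natDegree, a ^ j * y * ee p b j := by
  unfold TT ee
  simp only [Finset.smul_sum, Finset.mul_sum]
  rw [Finset.sum_comm' (t' := range p.natDegree)
    (s' := fun j => Ico (j + 1) (p.natDegree + 1))]
  · refine Finset.sum_congr rfl fun j _ => Finset.sum_congr rfl fun i _ => ?_
    rw [mul_smul_comm]
  · intro i j
    simp only [Finset.mem_range, Finset.mem_Ico]
    omega

theorem ee_top (p : (Subring.center D)[X]) (hp : p ≠ 0) (hd : p.natDegree ≠ 0) (b : D) :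
    ee p b (p.natDegree - 1) ≠ 0 := by
  unfold ee
  have h1 : p.natDegree - 1 + 1 = p.natDegree := by omega
  rw [h1, Nat.Ico_succ_singleton, Finset.sum_singleton]
  have h2 : p.natDegree - 1 - (p.natDegree - 1) = 0 := by omega
  rw [h2, pow_zero, Algebra.smul_def, mul_one]
  intro h3
  apply hp
  have h4 : p.leadingCoeff = 0 := Subtype.ext h3
  exact leadingCoeff_eq_zero.1 h4

variable (hD : AC D)

/-- the divided difference is not zero -/
theorem TT_ne (hD : AC D) (a b : D) : ∃ y, TT (minpoly (Subring.center D) a) a b y ≠ 0 := by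
  by_contra hcon
  push Not at hcon
  set p := minpoly (Subring.center D) a with hp
  have hp0 : p ≠ 0 := minpoly.ne_zero (hD a)
  have hd : p.natDegree ≠ 0 := (minpoly.natDegree_pos (hD a)).ne'
  have h1 := artin (fun i : Fin p.natDegree => a ^ (i : ℕ)) (linearIndependent_pow a) p.natDegree
    (fun i => ee p b i) ((Finset.card_le_univ _).trans (by simp)) (fun y => by
      have h2 := hcon y
      rw [TT_eq, Finset.sum_range] at h2
      exact h2) ⟨p.natDegree - 1, by omega⟩
  exact ee_top p hp0 hd b h1

/-- roots of the minimal polynomial are conjugate -/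
theorem dickson (hD : AC D) (a b : D) (hb : aeval b (minpoly (Subring.center D) a) = 0) :
    ∃ v : D, v ≠ 0 ∧ v * a = b * v := by
  obtain ⟨y, hy⟩ := TT_ne hD a b
  have h1 := TT_comm (minpoly (Subring.center D) a) a b y
  rw [minpoly.aeval, hb, zero_mul, mul_zero, sub_zero] at h1
  have h2 := sub_eq_zero.1 h1
  refine ⟨(TT (minpoly (Subring.center D) a) a b y)⁻¹, inv_ne_zero hy, ?_⟩
  set x := TT (minpoly (Subring.center D) a) a b y with hx
  have h3 : a = x * b * x⁻¹ := by
    rw [← h2, mul_assoc, mul_inv_cancel₀ hy, mul_one]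
  rw [h3, ← mul_assoc, ← mul_assoc, inv_mul_cancel₀ hy, one_mul]

/-- an automorphism -/
theorem Laut (hD : AC D) (a b : D) (hb : aeval b (minpoly (Subring.center D) a) = 0)
    (hba : b ∈ Algebra.adjoin (Subring.center D) {a}) (hne : b ≠ a) : PF D := by
  obtain ⟨v, hv, h⟩ := dickson hD a b hb
  exact Lv hD hba h hne hv

/-- the inseparable case -/
theorem Linsep (hD : AC D) (a : D) (h : derivative (minpoly (Subring.center D) a) = 0) :
    PF D := by
  set p := minpoly (Subring.center D) a with hp
  obtain ⟨y, hy⟩ := TT_ne hD a a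
  set Y : D := ∑ i ∈ range (p.natDegree + 1), p.coeff i • ∑ j ∈ range i,
    (∑ k ∈ range j, a ^ k * y * a ^ (j - 1 - k)) * a ^ (i - 1 - j) with hY
  have h1 : a * Y - Y * a = TT p a a y - y * aeval a (derivative p) := by
    have h2 : aeval a (derivative p) = ∑ i ∈ range (p.natDegree + 1),
        p.coeff i • ((i : D) * a ^ (i - 1)) := by
      have h9 : derivative p = ∑ i ∈ range (p.natDegree + 1),
          C (p.coeff i * (i : Subring.center D)) * X ^ (i - 1) := by
        conv_lhs => rw [p.as_sum_range_C_mul_X_pow]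
        rw [derivative_sum]
        exact Finset.sum_congr rfl fun i _ => derivative_C_mul_X_pow _ _
      rw [h9, map_sum]
      refine Finset.sum_congr rfl fun i _ => ?_
      rw [map_mul, map_pow, aeval_X, aeval_C, map_mul, map_natCast, Algebra.smul_def, mul_assoc]
    rw [h2, hY, Finset.mul_sum, Finset.sum_mul, ← Finset.sum_sub_distrib]
    unfold TT
    rw [Finset.mul_sum, ← Finset.sum_sub_distrib]
    refine Finset.sum_congr rfl fun i _ => ?_
    rw [mul_smul_comm, smul_mul_assoc, ← smul_sub, mul_smul_comm, ← smul_sub]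
    congr 1
    have h3 : y * ((i : D) * a ^ (i - 1)) = ∑ j ∈ range i, y * a ^ j * a ^ (i - 1 - j) := by
      have h4 : ∀ j ∈ range i, y * a ^ j * a ^ (i - 1 - j) = y * a ^ (i - 1) := by
        intro j hj
        have hj' := Finset.mem_range.1 hj
        rw [mul_assoc, ← pow_add]
        congr 2
        omega
      rw [Finset.sum_congr rfl h4, Finset.sum_const, Finset.card_range, nsmul_eq_mul,
        ← mul_assoc, ← mul_assoc, (Nat.cast_commute i y).eq]
    rw [h3, Finset.mul_sum, Finset.sum_mul, ← Finset.sum_sub_distrib,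
      ← Finset.sum_sub_distrib]
    refine Finset.sum_congr rfl fun j _ => ?_
    have h5 := tele a a y j
    have h6 : a * ((∑ k ∈ range j, a ^ k * y * a ^ (j - 1 - k)) * a ^ (i - 1 - j)) -
        (∑ k ∈ range j, a ^ k * y * a ^ (j - 1 - k)) * a ^ (i - 1 - j) * a =
        (a * (∑ k ∈ range j, a ^ k * y * a ^ (j - 1 - k)) -
          (∑ k ∈ range j, a ^ k * y * a ^ (j - 1 - k)) * a) * a ^ (i - 1 - j) := by
      have h7 : a ^ (i - 1 - j) * a = a * a ^ (i - 1 - j) := by
        rw [← pow_succ, ← pow_succ']
      rw [mul_assoc _ (a ^ (i - 1 - j)) a, h7, sub_mul]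
      simp only [mul_assoc]
    rw [h6, h5, sub_mul]
  rw [h, map_zero, mul_zero, sub_zero] at h1
  have h8 := TT_comm p a a y
  rw [minpoly.aeval, zero_mul, mul_zero, sub_zero] at h8
  refine Lc hD (a := a) (y := Y) ?_ ?_
  · rw [h1]
    exact hy
  · rw [h1]
    exact (sub_eq_zero.1 h8).symm

/-- the double centralizer of an element -/
theorem double (hD : AC D) (a c : D) (h : ∀ z ∈ cz a, c * z = z * c) :
    c ∈ Algebra.adjoin (Subring.center D) {a} := by
  by_contra hcon
  set A := Algebra.adjoin (Subring.center D) {a} with hA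
  set p := minpoly (Subring.center D) a with hp
  have hp0 : p ≠ 0 := minpoly.ne_zero (hD a)
  have hd : p.natDegree ≠ 0 := (minpoly.natDegree_pos (hD a)).ne'
  have hind : LinearIndependent (Subring.center D)
      (Sum.elim (fun i : Fin p.natDegree => a ^ (i : ℕ))
        (fun i : Fin p.natDegree => c * a ^ (i : ℕ))) := by
    have hpow := linearIndependent_pow (K := Subring.center D) a
    rw [Fintype.linearIndependent_iff] at hpow ⊢
    intro g hg
    rw [Fintype.sum_sum_type] at hg
    simp only [Sum.elim_inl, Sum.elim_inr] at hg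
    have hmem : ∀ f : Fin p.natDegree → Subring.center D, ∑ i, f i • a ^ (i : ℕ) ∈ A := by
      intro f
      refine Subalgebra.sum_mem _ fun i _ => Subalgebra.smul_mem _ (Subalgebra.pow_mem _
        (smem a) _) _
    have h1 : c * ∑ i, g (Sum.inr i) • a ^ (i : ℕ) = -∑ i, g (Sum.inl i) • a ^ (i : ℕ) := by
      rw [eq_neg_iff_add_eq_zero, add_comm, ← hg, Finset.mul_sum]
      congr 1
      exact Finset.sum_congr rfl fun i _ => by rw [mul_smul_comm]
    have h2 : ∑ i, g (Sum.inr i) • a ^ (i : ℕ) = 0 := by
      by_contra h3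
      apply hcon
      have h4 : c = -(∑ i, g (Sum.inl i) • a ^ (i : ℕ)) *
          (∑ i, g (Sum.inr i) • a ^ (i : ℕ))⁻¹ := by
        rw [← h1, mul_assoc, mul_inv_cancel₀ h3, mul_one]
      rw [h4]
      exact A.mul_mem (A.neg_mem (hmem _)) (inv_mem A (hD a).fg_adjoin_singleton (hmem _))
    rw [h2, mul_zero] at h1
    have h3 := neg_eq_zero.1 h1.symm
    rintro (i | i)
    · exact hpow (fun i => g (Sum.inl i)) h3 i
    · exact hpow (fun i => g (Sum.inr i)) h2 i
  have h1 := artin _ hind (Fintype.card (Fin p.natDegree ⊕ Fin p.natDegree))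
    (Sum.elim (fun i : Fin p.natDegree => -(ee p a i * c)) (fun i : Fin p.natDegree => ee p a i))
    (Finset.card_le_univ _) (fun y => by
      rw [Fintype.sum_sum_type]
      simp only [Sum.elim_inl, Sum.elim_inr]
      have h2 : TT p a a y ∈ cz a := by
        have h3 := TT_comm p a a y
        rw [minpoly.aeval, zero_mul, mul_zero, sub_zero] at h3
        exact sub_eq_zero.1 h3
      have h3 := h _ h2
      rw [TT_eq, Finset.sum_range, Finset.mul_sum, Finset.sum_mul] at h3
      have h4 : ∑ i : Fin p.natDegree, a ^ (i : ℕ) * y * -(ee p a i * c) =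
          -∑ i : Fin p.natDegree, a ^ (i : ℕ) * y * ee p a i * c := by
        rw [← Finset.sum_neg_distrib]
        exact Finset.sum_congr rfl fun i _ => by rw [mul_neg, mul_assoc _ (ee p a i)]
      have h5 : ∑ i : Fin p.natDegree, c * a ^ (i : ℕ) * y * ee p a i =
          ∑ i : Fin p.natDegree, c * (a ^ (i : ℕ) * y * ee p a i) :=
        Finset.sum_congr rfl fun i _ => by simp only [mul_assoc]
      rw [h4, h5, h3, neg_add_cancel]) (Sum.inr ⟨p.natDegree - 1, by omega⟩)
  exact ee_top p hp0 hd a h1

end

end Pool.Agent.NH80.DR
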