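import Pool.Agent.NH80.DR.Base

/-!
# Division rings algebraic over the centre: elements of degree at most four (helper80)
-/

set_option autoImplicit false
set_option linter.unusedVariables false

namespace Pool.Agent.NH80.DR

universe u

section

variable {D : Type u} [DivisionRing D]

theorem cmem {a α : D} (hα : α ∈ Subring.center D) :
    α ∈ Algebra.adjoin (Subring.center D) {a} :=
  Subalgebra.algebraMap_mem (Algebra.adjoin (Subring.center D) {a}) (⟨α, hα⟩ : Subring.center D)

theorem smem (a : D) : a ∈ Algebra.adjoin (Subring.center D) {a} :=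
  Algebra.self_mem_adjoin_singleton _ a

theorem ccomm {α : D} (hα : α ∈ Subring.center D) (g : D) : g * α = α * g :=
  Subring.mem_center_iff.1 hα g

theorem notc {w : D} (hw : w ∉ Subring.center D) : ∃ g, w * g ≠ g * w := by
  by_contra h
  push Not at h
  exact hw (Subring.mem_center_iff.2 fun g => (h g).symm)

/-- a commutator which commutes with `a` -/
theorem Lc (hD : AC D) {a y : D} (h0 : a * y - y * a ≠ 0)
    (h1 : (a * y - y * a) * a = a * (a * y - y * a)) : PF D := by
  set x := a * y - y * a with hx
  have h2 : x⁻¹ * a = a * x⁻¹ := (Commute.inv_left₀ (show Commute x a from h1)).eq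
  have h3 : y * a = a * y - x := by
    rw [hx]
    abel
  have h4 : (y * x⁻¹) * a = a * (y * x⁻¹) + (-1) := by
    rw [mul_assoc, h2, ← mul_assoc, h3, sub_mul, mul_inv_cancel₀ h0, mul_assoc]
    abel
  refine gen1 (F := Subring.center D) a (y * x⁻¹) (hD _) (hD _) a (-1) (smem a)
    (Subalgebra.neg_mem _ (Subalgebra.one_mem _)) h4 ?_
  rw [h4]
  intro h
  have h5 : (-1 : D) = 0 := by
    have := add_eq_left.1 h
    exact this
  exact one_ne_zero (neg_eq_zero.1 h5)

/-- an element which moves `a` inside its field -/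
theorem Lv (hD : AC D) {a v s : D} (hs : s ∈ Algebra.adjoin (Subring.center D) {a})
    (h : v * a = s * v) (hne : s ≠ a) (hv : v ≠ 0) : PF D := by
  refine gen1 (F := Subring.center D) a v (hD _) (hD _) s 0 hs (Subalgebra.zero_mem _)
    (by rw [add_zero, h]) ?_
  rw [h]
  intro h'
  exact hne (mul_right_cancel₀ hv h')

/-- degree two -/
theorem L2 (hD : AC D) {b y α β : D} (hα : α ∈ Subring.center D) (hβ : β ∈ Subring.center D)
    (hby : b * y ≠ y * b) (h : b * b = α * b + β) : PF D := by
  by_cases hc : (b * y - y * b) * b = b * (b * y - y * b)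
  · exact Lc hD (sub_ne_zero.2 hby) hc
  · have e : (b * y - y * b) * b = (α - b) * (b * y - y * b) := by
      have h1 : y * (b * b) = (b * b) * y + α * (y * b - b * y) := by
        rw [h, mul_add, ← mul_assoc, ccomm hα y, ccomm hβ y]
        noncomm_ring
      have h2 : (b * y - y * b) * b - (α - b) * (b * y - y * b) =
          -(y * (b * b)) + (b * b) * y + α * (y * b - b * y) := by
        noncomm_ring
      rw [← sub_eq_zero, h2, h1]
      abel
    refine gen1 (F := Subring.center D) b (b * y - y * b) (hD _) (hD _) (α - b) 0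
      (Subalgebra.sub_mem _ (cmem hα) (smem b)) (Subalgebra.zero_mem _)
      (by rw [add_zero, e]) hc

/-- conjugation -/
def cj (u : D) (hu : u ≠ 0) : D →+* D where
  toFun x := u * x * u⁻¹
  map_one' := by rw [mul_one, mul_inv_cancel₀ hu]
  map_mul' x y := by
    rw [mul_assoc (u * x) u⁻¹, ← mul_assoc u⁻¹ (u * y), ← mul_assoc u⁻¹ u, inv_mul_cancel₀ hu,
      one_mul]
    simp only [mul_assoc]
  map_zero' := by rw [mul_zero, zero_mul]
  map_add' x y := by rw [mul_add, add_mul]

theorem cj_mul (u : D) (hu : u ≠ 0) (x : D) : cj u hu x * u = u * x := by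
  show u * x * u⁻¹ * u = u * x
  rw [mul_assoc, inv_mul_cancel₀ hu, mul_one]

theorem cj_center (u : D) (hu : u ≠ 0) {α : D} (hα : α ∈ Subring.center D) :
    cj u hu α = α := by
  show u * α * u⁻¹ = α
  rw [ccomm hα u, mul_assoc, mul_inv_cancel₀ hu, mul_one]

/-- a noncentral element with central cube -/
theorem L3 (hD : AC D) {y u z : D} (hz : z ∈ Subring.center D) (h : y * y * y = z)
    (hn : u * y ≠ y * u) : PF D := by
  have hy0 : y ≠ 0 := by
    rintro rfl
    simp at hn
  have hu0 : u ≠ 0 := by
    rintro rfl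
    simp at hn
  set b := cj u hu0 y with hb
  have hbu : b * u = u * y := cj_mul u hu0 y
  have hb3 : b * b * b = z := by
    rw [hb, ← map_mul, ← map_mul, h, cj_center u hu0 hz]
  set d := b - y with hd
  have hd0 : d ≠ 0 := by
    intro h0
    apply hn
    rw [← hbu, sub_eq_zero.1 h0]
  set c := cj d hd0 b with hc
  have hcd : c * d = d * b := cj_mul d hd0 b
  set v := d * u with hv
  have hv0 : v ≠ 0 := mul_ne_zero hd0 hu0
  have hvy : v * y = c * v := by
    rw [hv, mul_assoc, ← hbu, ← mul_assoc, ← hcd, mul_assoc]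
  have hE : y * y + y * c + c * c = 0 := by
    have h1 : (y * y + y * c + c * c) * d = 0 := by
      have h2 : (y * y + y * c + c * c) * d = y * y * d + y * (c * d) + c * (c * d) := by
        noncomm_ring
      rw [h2, hcd, ← mul_assoc c d b, hcd, hd]
      have h3 : y * y * (b - y) + y * ((b - y) * b) + (b - y) * b * b = b * b * b - y * y * y := by
        noncomm_ring
      rw [h3, hb3, h, sub_self]
    exact (mul_eq_zero.1 h1).resolve_right hd0
  set w := y⁻¹ * c with hw
  have hcw : c = y * w := by
    rw [hw, ← mul_assoc, mul_inv_cancel₀ hy0, one_mul]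
  have hyw : (w + 1) * (y * w) = -y := by
    have h1 : y * (y + y * w + w * (y * w)) = 0 := by
      rw [hcw] at hE
      rw [← hE]
      noncomm_ring
    have h2 := (mul_eq_zero.1 h1).resolve_left hy0
    have h3 : (w + 1) * (y * w) = (y + y * w + w * (y * w)) - y := by noncomm_ring
    rw [h3, h2, zero_sub]
  by_cases hw1 : w * w + w + 1 = 0
  · by_cases hwc : w ∈ Subring.center D
    · by_cases hwo : w = 1
      · have hcy : c = y := by rw [hcw, hwo, mul_one]
        have h1 : y * u - u * y = -v := by
          rw [hv, hd, sub_mul, hbu]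
          abel
        refine Lc hD (a := y) (y := u) ?_ ?_
        · rw [h1]
          exact neg_ne_zero.2 hv0
        · rw [h1, neg_mul, hvy, hcy, mul_neg]
      · refine Lv hD (a := y) (v := v) (s := c) ?_ hvy ?_ hv0
        · rw [hcw]
          exact Subalgebra.mul_mem _ (smem y) (cmem hwc)
        · intro h1
          apply hwo
          rw [hw, h1, inv_mul_cancel₀ hy0]
    · obtain ⟨g, hg⟩ := notc hwc
      refine L2 hD (b := w) (y := g) (α := -1) (β := -1) ?_ ?_ hg ?_
      · exact Subring.neg_mem _ (Subring.one_mem _)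
      · exact Subring.neg_mem _ (Subring.one_mem _)
      · have h1 : w * w = (w * w + w + 1) - w - 1 := by abel
        rw [h1, hw1]
        noncomm_ring
  · have hw0 : w + 1 ≠ 0 := by
      intro h0
      rw [h0, zero_mul] at hyw
      exact hy0 (neg_eq_zero.1 hyw.symm)
    have h1 : y * w = -(w + 1)⁻¹ * y := by
      have h2 : (w + 1)⁻¹ * ((w + 1) * (y * w)) = y * w := by
        rw [← mul_assoc, inv_mul_cancel₀ hw0, one_mul]
      rw [← h2, hyw, mul_neg, neg_mul]
    refine gen1 (F := Subring.center D) w y (hD _) (hD _) (-(w + 1)⁻¹) 0 ?_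
      (Subalgebra.zero_mem _) (by rw [add_zero, h1]) ?_
    · exact Subalgebra.neg_mem _ (inv_mem _ (hD w).fg_adjoin_singleton
        (Subalgebra.add_mem _ (smem w) (Subalgebra.one_mem _)))
    · intro h2
      rw [h2] at hyw
      have h3 : (w * w + w + 1) * y = (w + 1) * (w * y) + y := by noncomm_ring
      rw [hyw, neg_add_cancel] at h3
      exact hw1 ((mul_eq_zero.1 h3).resolve_right hy0)

/-- the centralizer -/
def cz (z : D) : Subfield D where
  carrier := {y | z * y = y * z}
  mul_mem' := by
    intro x y hx hy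
    show z * (x * y) = x * y * z
    rw [← mul_assoc, show z * x = x * z from hx, mul_assoc, show z * y = y * z from hy, mul_assoc]
  one_mem' := by
    show z * 1 = 1 * z
    rw [mul_one, one_mul]
  add_mem' := by
    intro x y hx hy
    show z * (x + y) = (x + y) * z
    rw [mul_add, add_mul, show z * x = x * z from hx, show z * y = y * z from hy]
  zero_mem' := by
    show z * 0 = 0 * z
    rw [mul_zero, zero_mul]
  neg_mem' := by
    intro x hx
    show z * (-x) = (-x) * z
    rw [mul_neg, neg_mul, show z * x = x * z from hx]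
  inv_mem' := by
    intro x hx
    exact (Commute.inv_right₀ (show Commute z x from hx)).eq

theorem cz_center (z : D) : ∀ x ∈ Subring.center D, x ∈ cz z := fun x hx => ccomm hx z

theorem comm_id1 {R : Type u} [CommRing R] (a c α β γ : R)
    (hE : a * a + a * c + c * c + α * (a + c) + β = 0)
    (ha : a * a * a + α * (a * a) + β * a + γ = 0) :
    (a * a * c + c * c * (-α - a - c) + (-α - a - c) * (-α - a - c) * a) *
      (a * a * c + c * c * (-α - a - c) + (-α - a - c) * (-α - a - c) * a) =
    (3 * γ - α * β) * (a * a * c + c * c * (-α - a - c) + (-α - a - c) * (-α - a - c) * a) +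
      -(β * β * β + α * α * α * γ + 9 * (γ * γ) - 6 * (α * β * γ)) := by
  have hβ : β = -(a * a + a * c + c * c + α * (a + c)) := by linear_combination hE
  have hγ : γ = -(a * a * a + α * (a * a) + β * a) := by linear_combination ha
  rw [hγ, hβ]
  ring

theorem comm_id2 {R : Type u} [CommRing R] (a c α β γ : R)
    (hE : a * a + a * c + c * c + α * (a + c) + β = 0) :
    (a * a * c + c * c * (-α - a - c) + (-α - a - c) * (-α - a - c) * a) =
      α * α * a + α * (a * a) - β * a + (3 * (a * a) + 2 * α * a + β) * c := by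
  have hβ : β = -(a * a + a * c + c * c + α * (a + c)) := by linear_combination hE
  rw [hβ]
  ring

theorem comm_id3 {R : Type u} [CommRing R] (a c α β γ : R)
    (hE : a * a + a * c + c * c + α * (a + c) + β = 0) :
    3 * (a * a) + 2 * α * a + β = (a - c) * (2 * a + α + c) := by
  linear_combination hE

theorem comm_id4 {R : Type u} [CommRing R] (B C α β γ δ : R)
    (h1 : γ = (α - B) * C + ((β - α * B + B * B) - C) * B)
    (h2 : δ = ((β - α * B + B * B) - C) * C) :
    (B * (α - B)) * (B * (α - B)) * (B * (α - B)) + (-(2 * β)) * ((B * (α - B)) * (B * (α - B))) +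
      (β * β - 4 * δ + α * γ) * (B * (α - B)) + (δ * (α * α) - α * β * γ + γ * γ) = 0 := by
  rw [h1, h2]
  ring

/-- the commuting elements generate a commutative ring -/
theorem L4c (hD : AC D) {a c v α β γ : D} (hα : α ∈ Subring.center D)
    (hβ : β ∈ Subring.center D) (hγ : γ ∈ Subring.center D)
    (hac : a * c = c * a) (hv0 : v ≠ 0) (hva : v * a = c * v) (hca : c ≠ a)
    (hE : a * a + a * c + c * c + α * (a + c) + β = 0)
    (ha : a * a * a + α * (a * a) + β * a + γ = 0) : PF D := by
  have hS : ∀ x ∈ ({a, c, α, β, γ} : Set D), ∀ y ∈ ({a, c, α, β, γ} : Set D), x * y = y * x := by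
    have k1 := fun g => ccomm hα g
    have k2 := fun g => ccomm hβ g
    have k3 := fun g => ccomm hγ g
    rintro x (rfl | rfl | rfl | rfl | rfl) y (rfl | rfl | rfl | rfl | rfl) <;>
      first
        | rfl
        | exact hac
        | exact hac.symm
        | exact k1 _
        | exact (k1 _).symm
        | exact k2 _
        | exact (k2 _).symm
        | exact k3 _
        | exact (k3 _).symm
  letI : CommRing (Subring.closure ({a, c, α, β, γ} : Set D)) :=
    Subring.closureCommRingOfComm hS
  have m1 : a ∈ Subring.closure ({a, c, α, β, γ} : Set D) := Subring.subset_closure (by simp)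
  have m2 : c ∈ Subring.closure ({a, c, α, β, γ} : Set D) := Subring.subset_closure (by simp)
  have m3 : α ∈ Subring.closure ({a, c, α, β, γ} : Set D) := Subring.subset_closure (by simp)
  have m4 : β ∈ Subring.closure ({a, c, α, β, γ} : Set D) := Subring.subset_closure (by simp)
  have m5 : γ ∈ Subring.closure ({a, c, α, β, γ} : Set D) := Subring.subset_closure (by simp)
  have i1 := congrArg Subtype.val (comm_id1 (R := Subring.closure ({a, c, α, β, γ} : Set D))
    ⟨a, m1⟩ ⟨c, m2⟩ ⟨α, m3⟩ ⟨β, m4⟩ ⟨γ, m5⟩ (Subtype.ext hE) (Subtype.ext ha))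
  have i2 := congrArg Subtype.val (comm_id2 (R := Subring.closure ({a, c, α, β, γ} : Set D))
    ⟨a, m1⟩ ⟨c, m2⟩ ⟨α, m3⟩ ⟨β, m4⟩ ⟨γ, m5⟩ (Subtype.ext hE))
  have i3 := congrArg Subtype.val (comm_id3 (R := Subring.closure ({a, c, α, β, γ} : Set D))
    ⟨a, m1⟩ ⟨c, m2⟩ ⟨α, m3⟩ ⟨β, m4⟩ ⟨γ, m5⟩ (Subtype.ext hE))
  have j1 : (a * a * c + c * c * (-α - a - c) + (-α - a - c) * (-α - a - c) * a) *
      (a * a * c + c * c * (-α - a - c) + (-α - a - c) * (-α - a - c) * a) =
    (3 * γ - α * β) * (a * a * c + c * c * (-α - a - c) + (-α - a - c) * (-α - a - c) * a) +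
      -(β * β * β + α * α * α * γ + 9 * (γ * γ) - 6 * (α * β * γ)) := i1
  have j2 : (a * a * c + c * c * (-α - a - c) + (-α - a - c) * (-α - a - c) * a) =
      α * α * a + α * (a * a) - β * a + (3 * (a * a) + 2 * α * a + β) * c := i2
  have j3 : 3 * (a * a) + 2 * α * a + β = (a - c) * (2 * a + α + c) := i3
  clear i1 i2 i3
  set θ := a * a * c + c * c * (-α - a - c) + (-α - a - c) * (-α - a - c) * a with hθ
  have n3 : (3 : D) ∈ Subring.center D := ofNat_mem (Subring.center D) 3
  have n2 : (2 : D) ∈ Subring.center D := ofNat_mem (Subring.center D) 2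
  have n6 : (6 : D) ∈ Subring.center D := ofNat_mem (Subring.center D) 6
  have n9 : (9 : D) ∈ Subring.center D := ofNat_mem (Subring.center D) 9
  have zm := fun x y (hx : x ∈ Subring.center D) (hy : y ∈ Subring.center D) =>
    (Subring.center D).mul_mem hx hy
  by_cases hθc : θ ∈ Subring.center D
  · have hcm : c ∈ Algebra.adjoin (Subring.center D) {a} := by
      set A := Algebra.adjoin (Subring.center D) {a} with hA
      have sa : a ∈ A := smem a
      have sα : α ∈ A := cmem hα
      have sβ : β ∈ A := cmem hβ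
      have s3 : (3 : D) ∈ A := cmem n3
      have s2 : (2 : D) ∈ A := cmem n2
      have sθ : θ ∈ A := cmem hθc
      have sg : 3 * (a * a) + 2 * α * a + β ∈ A :=
        A.add_mem (A.add_mem (A.mul_mem s3 (A.mul_mem sa sa)) (A.mul_mem (A.mul_mem s2 sα) sa)) sβ
      by_cases hg : 3 * (a * a) + 2 * α * a + β = 0
      · rw [j3] at hg
        have h1 := (mul_eq_zero.1 hg).resolve_left (sub_ne_zero.2 (Ne.symm hca))
        have h2 : c = -(2 * a + α) := by
          rw [← sub_eq_zero, ← h1]
          abel
        rw [h2]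
        exact A.neg_mem (A.add_mem (A.mul_mem s2 sa) sα)
      · have h1 : (3 * (a * a) + 2 * α * a + β) * c =
            θ - (α * α * a + α * (a * a) - β * a) := by
          rw [j2]
          abel
        have h2 : c = (3 * (a * a) + 2 * α * a + β)⁻¹ *
            (θ - (α * α * a + α * (a * a) - β * a)) := by
          rw [← h1, ← mul_assoc, inv_mul_cancel₀ hg, one_mul]
        rw [h2]
        refine A.mul_mem (inv_mem A (hD a).fg_adjoin_singleton sg) (A.sub_mem sθ ?_)
        exact A.sub_mem (A.add_mem (A.mul_mem (A.mul_mem sα sα) sa)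
          (A.mul_mem sα (A.mul_mem sa sa))) (A.mul_mem sβ sa)
    exact Lv hD hcm hva hca hv0
  · obtain ⟨g, hg⟩ := notc hθc
    refine L2 hD (b := θ) (y := g) ?_ ?_ hg j1
    · exact Subring.sub_mem _ (zm _ _ n3 hγ) (zm _ _ hα hβ)
    · refine Subring.neg_mem _ (Subring.sub_mem _ (Subring.add_mem _ (Subring.add_mem _
        (zm _ _ (zm _ _ hβ hβ) hβ) (zm _ _ (zm _ _ (zm _ _ hα hα) hα) hγ))
        (zm _ _ n9 (zm _ _ hγ hγ))) (zm _ _ n6 (zm _ _ (zm _ _ hα hβ) hγ)))

/-- degree three -/
theorem L4 (hD : AC D) {a u α β γ : D} (hα : α ∈ Subring.center D)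
    (hβ : β ∈ Subring.center D) (hγ : γ ∈ Subring.center D)
    (ha : a * a * a + α * (a * a) + β * a + γ = 0) (hn : u * a ≠ a * u) : PF D := by
  have hu0 : u ≠ 0 := by
    rintro rfl
    simp at hn
  set b := cj u hu0 a with hb
  have hbu : b * u = u * a := cj_mul u hu0 a
  have hfb : b * b * b + α * (b * b) + β * b + γ = 0 := by
    have h1 := congrArg (cj u hu0) ha
    simp only [map_add, map_mul, map_zero, cj_center u hu0 hα, cj_center u hu0 hβ,
      cj_center u hu0 hγ] at h1
    exact h1
  set d := b - a with hd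
  have hd0 : d ≠ 0 := by
    intro h0
    apply hn
    rw [← hbu, sub_eq_zero.1 h0]
  set c := cj d hd0 b with hc
  have hcd : c * d = d * b := cj_mul d hd0 b
  have hfc : c * c * c + α * (c * c) + β * c + γ = 0 := by
    have h1 := congrArg (cj d hd0) hfb
    simp only [map_add, map_mul, map_zero, cj_center d hd0 hα, cj_center d hd0 hβ,
      cj_center d hd0 hγ] at h1
    exact h1
  set v := d * u with hv
  have hv0 : v ≠ 0 := mul_ne_zero hd0 hu0
  have hva : v * a = c * v := by
    rw [hv, mul_assoc, ← hbu, ← mul_assoc, ← hcd, mul_assoc]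
  have hE : a * a + a * c + c * c + α * (a + c) + β = 0 := by
    have h1 : (a * a + a * c + c * c + α * (a + c) + β) * d = 0 := by
      have h2 : (a * a + a * c + c * c + α * (a + c) + β) * d =
          a * a * d + a * (c * d) + c * (c * d) + α * (a * d + c * d) + β * d := by
        noncomm_ring
      rw [h2, hcd, ← mul_assoc c d b, hcd, hd]
      have h3 : a * a * (b - a) + a * ((b - a) * b) + (b - a) * b * b +
          α * (a * (b - a) + (b - a) * b) + β * (b - a) =
          (b * b * b + α * (b * b) + β * b + γ) - (a * a * a + α * (a * a) + β * a + γ) := by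
        noncomm_ring
      rw [h3, hfb, ha, sub_self]
    exact (mul_eq_zero.1 h1).resolve_right hd0
  by_cases hca : c = a
  · have h1 : a * u - u * a = -v := by
      rw [hv, hd, sub_mul, hbu]
      abel
    refine Lc hD (a := a) (y := u) ?_ ?_
    · rw [h1]
      exact neg_ne_zero.2 hv0
    · rw [h1, neg_mul, hva, hca, mul_neg]
  by_cases hx0 : a * c - c * a = 0
  · exact L4c hD hα hβ hγ (sub_eq_zero.1 hx0) hv0 hva hca hE ha
  set x := a * c - c * a with hx
  have kα : c * α - α * c = 0 := sub_eq_zero.2 (ccomm hα c)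
  have kβ : c * β - β * c = 0 := sub_eq_zero.2 (ccomm hβ c)
  have hxa : c * x = x * a := by
    have h1 : c * x - x * a =
        (c * (a * a + a * c + c * c + α * (a + c) + β) -
          (c * c * c + α * (c * c) + β * c + γ)) -
        ((a * a + a * c + c * c + α * (a + c) + β) * a -
          (a * a * a + α * (a * a) + β * a + γ)) -
        (c * α - α * c) * (a + c) - (c * β - β * c) := by
      rw [hx]
      noncomm_ring
    rw [hE, hfc, ha, kα, kβ] at h1
    rw [← sub_eq_zero, h1]
    simp
  set e := -α - a - c with he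
  have hxc : x * c = e * x := by
    have h1 : x * c - (-α * x - a * x - x * a) =
        (a * a + a * c + c * c + α * (a + c) + β) * c -
          c * (a * a + a * c + c * c + α * (a + c) + β) +
        (c * α - α * c) * (a + c) + (c * β - β * c) := by
      rw [hx]
      noncomm_ring
    rw [hE, kα, kβ] at h1
    have h2 : x * c = -α * x - a * x - x * a := by
      rw [← sub_eq_zero, h1]
      simp
    rw [h2, ← hxa, he]
    noncomm_ring
  have hxe : x * e = a * x := by
    have h1 : x * e = -(x * α) - x * a - x * c := by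
      rw [he]
      noncomm_ring
    rw [h1, hxc, ← hxa, ccomm hα x, he]
    noncomm_ring
  have hza : x * x * x * a = a * (x * x * x) := by
    rw [mul_assoc (x * x), ← hxa, ← mul_assoc (x * x), mul_assoc x x c, hxc, ← mul_assoc x e x,
      hxe]
    simp only [mul_assoc]
  have hxE : x ∈ cz (x * x * x) := by
    show x * x * x * x = x * (x * x * x)
    simp only [mul_assoc]
  have haE : a ∈ cz (x * x * x) := hza
  have hzE : x * x * x ∈ cz (x * x * x) := rfl
  refine pf_of_sub (cz (x * x * x)) ?_
  have hzc : (⟨x * x * x, hzE⟩ : cz (x * x * x)) ∈ Subring.center (cz (x * x * x)) := by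
    rw [Subring.mem_center_iff]
    intro g
    exact Subtype.ext (show (g : D) * (x * x * x) = x * x * x * g from (g.2 : _ ).symm)
  refine L3 (ac_of_sub _ (cz_center _) hD) (y := ⟨x, hxE⟩) (u := ⟨a, haE⟩) hzc rfl ?_
  intro h
  have h1 : a * x = x * a := congrArg Subtype.val h
  rw [← hxa] at h1
  exact hca (mul_right_cancel₀ hx0 h1).symm

/-- degree four -/
theorem L5 (hD : AC D) {a u α β γ δ : D} (hα : α ∈ Subring.center D)
    (hβ : β ∈ Subring.center D) (hγ : γ ∈ Subring.center D) (hδ : δ ∈ Subring.center D)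
    (ha : a * a * a * a + α * (a * a * a) + β * (a * a) + γ * a + δ = 0)
    (hn : u * a ≠ a * u) : PF D := by
  have hu0 : u ≠ 0 := by
    rintro rfl
    simp at hn
  set b := cj u hu0 a with hb
  have hbu : b * u = u * a := cj_mul u hu0 a
  have hfb : b * b * b * b + α * (b * b * b) + β * (b * b) + γ * b + δ = 0 := by
    have h1 := congrArg (cj u hu0) ha
    simp only [map_add, map_mul, map_zero, cj_center u hu0 hα, cj_center u hu0 hβ,
      cj_center u hu0 hγ, cj_center u hu0 hδ] at h1
    exact h1
  set d := b - a with hd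
  have hd0 : d ≠ 0 := by
    intro h0
    apply hn
    rw [← hbu, sub_eq_zero.1 h0]
  set c := cj d hd0 b with hc
  have hcd : c * d = d * b := cj_mul d hd0 b
  set B := -(a + c) with hB
  set C := c * a with hC
  set s := β - α * B + B * B with hs
  have ra : a * a + B * a + C = 0 := by
    rw [hB, hC]
    noncomm_ring
  have rb : b * b + B * b + C = 0 := by
    have h1 : b * b + B * b + C = (b - a) * b - c * (b - a) := by
      rw [hB, hC]
      noncomm_ring
    rw [h1, ← hd, hcd, sub_self]
  have key : ∀ r : D, r * r + B * r + C = 0 →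
      r * r * r * r + α * (r * r * r) + β * (r * r) + γ * r + δ = 0 →
      (γ - ((α - B) * C + (s - C) * B)) * r + (δ - (s - C) * C) = 0 := by
    intro r h1 h2
    have h3 : (γ - ((α - B) * C + (s - C) * B)) * r + (δ - (s - C) * C) =
        (r * r * r * r + α * (r * r * r) + β * (r * r) + γ * r + δ) -
        ((r * r + B * r + C) * (r * r) + (α - B) * ((r * r + B * r + C) * r) +
          (s - C) * (r * r + B * r + C)) := by
      rw [hs]
      noncomm_ring
    rw [h3, h1, h2]
    simp
  have ka := key a ra ha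
  have kb := key b rb hfb
  have r1 : γ = (α - B) * C + (s - C) * B := by
    have h1 : (γ - ((α - B) * C + (s - C) * B)) * d = 0 := by
      have h2 : (γ - ((α - B) * C + (s - C) * B)) * d =
          ((γ - ((α - B) * C + (s - C) * B)) * b + (δ - (s - C) * C)) -
          ((γ - ((α - B) * C + (s - C) * B)) * a + (δ - (s - C) * C)) := by
        rw [hd]
        noncomm_ring
      rw [h2, ka, kb, sub_self]
    exact sub_eq_zero.1 ((mul_eq_zero.1 h1).resolve_right hd0)
  have r0 : δ = (s - C) * C := by
    rw [← r1, sub_self, zero_mul, zero_add] at ka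
    exact sub_eq_zero.1 ka
  have sB : s ∈ Algebra.adjoin (Subring.center D) {B} :=
    Subalgebra.add_mem _ (Subalgebra.sub_mem _ (cmem hβ) (Subalgebra.mul_mem _ (cmem hα) (smem B)))
      (Subalgebra.mul_mem _ (smem B) (smem B))
  by_cases hBC : C * B = B * C
  · have hS : ∀ x ∈ ({B, C, α, β, γ, δ} : Set D), ∀ y ∈ ({B, C, α, β, γ, δ} : Set D),
        x * y = y * x := by
      have k1 := fun g => ccomm hα g
      have k2 := fun g => ccomm hβ g
      have k3 := fun g => ccomm hγ g
      have k4 := fun g => ccomm hδ g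
      have all : ∀ x ∈ ({B, C, α, β, γ, δ} : Set D), x = B ∨ x = C ∨ x ∈ Subring.center D := by
        rintro x (h | h | h | h | h | h)
        · exact Or.inl h
        · exact Or.inr (Or.inl h)
        · exact Or.inr (Or.inr (h ▸ hα))
        · exact Or.inr (Or.inr (h ▸ hβ))
        · exact Or.inr (Or.inr (h ▸ hγ))
        · exact Or.inr (Or.inr (Set.mem_singleton_iff.1 h ▸ hδ))
      intro x hx y hy
      rcases all x hx with h1 | h1 | h1
      · rcases all y hy with h2 | h2 | h2
        · rw [h1, h2]
        · rw [h1, h2, hBC]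
        · exact ccomm h2 x
      · rcases all y hy with h2 | h2 | h2
        · rw [h1, h2, hBC]
        · rw [h1, h2]
        · exact ccomm h2 x
      · exact (ccomm h1 y).symm
    letI : CommRing (Subring.closure ({B, C, α, β, γ, δ} : Set D)) :=
      Subring.closureCommRingOfComm hS
    have m1 : B ∈ Subring.closure ({B, C, α, β, γ, δ} : Set D) := Subring.subset_closure (by simp)
    have m2 : C ∈ Subring.closure ({B, C, α, β, γ, δ} : Set D) := Subring.subset_closure (by simp)
    have m3 : α ∈ Subring.closure ({B, C, α, β, γ, δ} : Set D) := Subring.subset_closure (by simp)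
    have m4 : β ∈ Subring.closure ({B, C, α, β, γ, δ} : Set D) := Subring.subset_closure (by simp)
    have m5 : γ ∈ Subring.closure ({B, C, α, β, γ, δ} : Set D) := Subring.subset_closure (by simp)
    have m6 : δ ∈ Subring.closure ({B, C, α, β, γ, δ} : Set D) := Subring.subset_closure (by simp)
    have i1 := congrArg Subtype.val (comm_id4
      (R := Subring.closure ({B, C, α, β, γ, δ} : Set D))
      ⟨B, m1⟩ ⟨C, m2⟩ ⟨α, m3⟩ ⟨β, m4⟩ ⟨γ, m5⟩ ⟨δ, m6⟩ (Subtype.ext r1) (Subtype.ext r0))
    have j1 : (B * (α - B)) * (B * (α - B)) * (B * (α - B)) +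
        (-(2 * β)) * ((B * (α - B)) * (B * (α - B))) +
        (β * β - 4 * δ + α * γ) * (B * (α - B)) + (δ * (α * α) - α * β * γ + γ * γ) = 0 := i1
    clear i1
    have n2 : (2 : D) ∈ Subring.center D := ofNat_mem (Subring.center D) 2
    have n4 : (4 : D) ∈ Subring.center D := ofNat_mem (Subring.center D) 4
    have zm := fun x y (hx : x ∈ Subring.center D) (hy : y ∈ Subring.center D) =>
      (Subring.center D).mul_mem hx hy
    by_cases hU : B * (α - B) ∈ Subring.center D
    · by_cases hBc : B ∈ Subring.center D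
      · have hsc : s ∈ Subring.center D := Subring.add_mem _ (Subring.sub_mem _ hβ
          (zm _ _ hα hBc)) (zm _ _ hBc hBc)
        by_cases hCc : C ∈ Subring.center D
        · refine L2 hD (b := a) (y := u) (α := -B) (β := -C) (Subring.neg_mem _ hBc)
            (Subring.neg_mem _ hCc) (Ne.symm hn) ?_
          have h1 : a * a = (a * a + B * a + C) + (-B * a + -C) := by noncomm_ring
          rw [h1, ra, zero_add]
        · obtain ⟨g, hg⟩ := notc hCc
          refine L2 hD (b := C) (y := g) (α := s) (β := -δ) hsc (Subring.neg_mem _ hδ) hg ?_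
          rw [r0]
          noncomm_ring
      · obtain ⟨g, hg⟩ := notc hBc
        refine L2 hD (b := B) (y := g) (α := α) (β := -(B * (α - B))) hα
          (Subring.neg_mem _ hU) hg ?_
        rw [mul_sub, ccomm hα B]
        abel
    · obtain ⟨g, hg⟩ := notc hU
      refine L4 hD (a := B * (α - B)) (u := g) ?_ ?_ ?_ j1 (Ne.symm hg)
      · exact Subring.neg_mem _ (zm _ _ n2 hβ)
      · exact Subring.add_mem _ (Subring.sub_mem _ (zm _ _ hβ hβ) (zm _ _ n4 hδ)) (zm _ _ hα hγ)
      · exact Subring.add_mem _ (Subring.sub_mem _ (zm _ _ hδ (zm _ _ hα hα))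
          (zm _ _ (zm _ _ hα hβ) hγ)) (zm _ _ hγ hγ)
  · refine gen1 (F := Subring.center D) B C (hD _) (hD _) (α - B) (s * B - γ)
      (Subalgebra.sub_mem _ (cmem hα) (smem B))
      (Subalgebra.sub_mem _ (Subalgebra.mul_mem _ sB (smem B)) (cmem hγ)) ?_ hBC
    rw [r1]
    noncomm_ring

end

end Pool.Agent.NH80.DR
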